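import Pool.Agent.N848.SK.Stm
import Pool.Agent.N848.AW.AlgR

/-!
# SK/CR2: the factorizations `-D = a b` with square conditions

By helper765, after `Pool/Agent/N848/AW/AlgR.lean` (helper848).
-/

set_option autoImplicit false
set_option linter.unusedSectionVars false

open scoped Classical

namespace Pool.Agent.N765.SK

open Finset
open Pool.Agent.R426 Pool.Agent.R426.QK
open Pool.Agent.Y698
open Pool.Agent.Y698.SG hiding PD
open Pool.Agent.N848.AW Pool.Agent.N848.SK

/-- the other direction of `cs_sq` -/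
lemma sqr_of_cs {π x : RR} (h : ¬ π ∣ x) (h0 : cs π x = 0) : Sqr π x := by
  unfold cs Pool.Agent.Y698.SG.lg at h0
  have h1 : Pool.Agent.Y698.SG.sy π x = 1 := by
    by_contra h2
    rw [if_neg h2] at h0
    exact one_ne_zero h0
  unfold Pool.Agent.Y698.SG.sy at h1
  rw [if_neg (fun h2 => h (mem_sp.1 h2))] at h1
  have h2 : IsSquare (Ideal.Quotient.mk (Ideal.span {π}) x) := by
    by_contra h3
    rw [if_neg h3] at h1
    norm_num at h1
  obtain ⟨r, hr⟩ := h2
  obtain ⟨y, rfl⟩ := Ideal.Quotient.mk_surjective r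
  refine ⟨y, ?_⟩
  rw [← map_mul, Ideal.Quotient.eq, Ideal.mem_span_singleton, ← pow_two] at hr
  exact hr

/-- the kernel of `r8` -/
lemma r8_ker {x : RR} (h : r8 x = 0) : aR ^ 3 ∣ x := by
  rw [r8_eq, ZMod.intCast_zmod_eq_zero_iff_dvd] at h
  obtain ⟨k, hk⟩ := h
  push_cast at hk
  have h3 : aR ^ 3 = -aR - 2 := by linear_combination (aR + 1) * aR_sq
  have hx : x = ((cX x : ℤ) : RR) + ((cY x : ℤ) : RR) * aR := by
    have := mk_co x
    unfold QK.mk at this
    exact this.symm
  have hk' : ((cX x : ℤ) : RR) + 6 * ((cY x : ℤ) : RR) = 8 * (k : RR) := by exact_mod_cast hk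
  refine ⟨(aR - 3) * (k : RR) + (2 - aR) * ((cY x : ℤ) : RR), ?_⟩
  rw [h3]
  calc x = ((cX x : ℤ) : RR) + ((cY x : ℤ) : RR) * aR := hx
    _ = _ := by linear_combination hk' + ((k : RR) - ((cY x : ℤ) : RR)) * aR_sq

/-- the sign of the complement -/
lemma sg_mul_sg (e : ZMod 2) : sg e * sg (e + 1) = -1 := by
  rcases zm e with rfl | rfl
  · rw [zero_add, sg_zero, sg_one, one_mul]
  · rw [show (1 : ZMod 2) + 1 = 0 by decide, sg_zero, sg_one, mul_one]

lemma od3 : ∀ u : ZMod 8, N848.AW.Od u → (u = 1 ∨ u = 3) → q4 u = q8 u := by decide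

lemma od3' : ∀ u : ZMod 8, N848.AW.Od u → q4 u = q8 u → u = 1 ∨ u = 3 := by decide

lemma vals : q4 7 = 1 ∧ q8 7 = 0 ∧ q4 3 = 1 ∧ q8 3 = 1 ∧ N848.AW.Od 3 := by decide

section

variable {S : Finset RR} (hS : ∀ π ∈ S, Pq π)

include hS

/-- the values at the place `w` -/
lemma va (x : RR → ZMod 2) (e : ZMod 2) (ϖ δ : RR)
    (hd : δ = sg e * (pw 0 ϖ * ∏ q ∈ S.filter (fun q => x q = 1), q)) :
    N848.AW.Od (r8 δ) ∧ q4 (r8 δ) = e ∧ q8 (r8 δ) = dt S gg x := by
  obtain ⟨v1, v2, v3, v4, v5⟩ := vals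
  have hd' : δ = sg e * (pw 0 (cj aR) * ∏ q ∈ S.filter (fun q => x q = 1), q) := by
    rw [hd, pw_zero, pw_zero]
  have hU : ∀ q ∈ S.filter (fun q => x q = 1), N848.AW.Od (r8 q) := fun q hq =>
    (q_r8 (hS q (mem_filter.1 hq).1).prm).1
  obtain ⟨k1, k2⟩ := q_val ad_q4 r8 hU (by rw [r8_cja]; exact v5) e 0
  obtain ⟨-, k3⟩ := q_val ad_q8 r8 hU (by rw [r8_cja]; exact v5) e 0
  rw [← hd'] at k1 k2 k3
  refine ⟨k1, ?_, ?_⟩
  · rw [k2, v1, sum_filter_x,
      sum_eq_zero fun q hq => by rw [(q_r8 (hS q hq).prm).2.1, zero_mul]]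
    ring
  · rw [k3, v2, sum_filter_x,
      sum_congr rfl fun q hq => by rw [(q_r8 (hS q hq).prm).2.2]]
    show e * 0 + (0 * _ + dt S gg x) = _
    ring

/-- the values at the conjugate place -/
lemma vc (x : RR → ZMod 2) (e : ZMod 2) (ϖ δ : RR)
    (hd : δ = sg e * (pw 0 ϖ * ∏ q ∈ S.filter (fun q => x q = 1), q)) :
    N848.AW.Od ((r8.comp cj) δ) ∧ q4 ((r8.comp cj) δ) = e + dt S tt x ∧
      q8 ((r8.comp cj) δ) = dt S hh x := by
  obtain ⟨v1, v2, v3, v4, v5⟩ := vals
  have hd' : δ = sg e * (pw 0 aR * ∏ q ∈ S.filter (fun q => x q = 1), q) := by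
    rw [hd, pw_zero, pw_zero]
  have hU : ∀ q ∈ S.filter (fun q => x q = 1), N848.AW.Od ((r8.comp cj) q) := fun q hq =>
    (q_cj (hS q (mem_filter.1 hq).1).prm).1
  have ha : (r8.comp cj) aR = 3 := r8_cja
  obtain ⟨k1, k2⟩ := q_val ad_q4 (r8.comp cj) hU (by rw [ha]; exact v5) e 0
  obtain ⟨-, k3⟩ := q_val ad_q8 (r8.comp cj) hU (by rw [ha]; exact v5) e 0
  rw [← hd'] at k1 k2 k3
  refine ⟨k1, ?_, ?_⟩
  · rw [k2, v1, sum_filter_x]
    have e1 : ∑ q ∈ S, q4 ((r8.comp cj) q) * x q = dt S tt x :=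
      sum_congr rfl fun q hq => by
        rw [show q4 ((r8.comp cj) q) = tt q from (q_cj (hS q hq).prm).2.1]
    rw [e1]
    ring
  · rw [k3, v2, sum_filter_x]
    have e1 : ∑ q ∈ S, q8 ((r8.comp cj) q) * x q = dt S hh x :=
      sum_congr rfl fun q hq => by
        rw [show q8 ((r8.comp cj) q) = hh q from (q_cj (hS q hq).prm).2.2]
    rw [e1]
    ring

end

/-- SK-CR2 -/
theorem t_CR2 : S_CR2 := by
  intro hrec hsup hcls D hC
  obtain ⟨hS, hprod, h0, h5⟩ := hcls.1 D hC
  set S := QK.PD D with hSdef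
  have hm := hC.2.1
  have hm1 : ∀ π : RR, Pq π → cs π (-1) = tt π := fun π h => (hsup π h).1
  have hcca := cs_ca hsup hS
  have sc : ∑ π ∈ S, (tt π + hh π) = 1 := by rw [sum_add_distrib, h0, h5.2, zero_add]
  have eN : -D = sg 1 * ∏ π ∈ S, π := by rw [sg_one, hprod]; ring
  have hr3 : r8 aR ^ 3 = 0 := by rw [r8_a]; decide
  have hr3' : (r8.comp cj) (cj aR) ^ 3 = 0 := by
    show r8 (cj (cj aR)) ^ 3 = 0
    rw [cj_cj, r8_a]
    decide
  have hDsq : Squarefree (-D) := fun y hy => hC.1 y (by rwa [dvd_neg] at hy)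
  have hD0 : -D ≠ 0 := hDsq.ne_zero
  have hrD : ∀ r : RR →+* ZMod 8, r (-D) = 3 := fun r => by
    rw [map_neg, r8_5 hm]
    decide
  show Cond (-D) ↔ E2 RR S cA tt gg hh
  constructor
  · intro hcond x hx hrow
    set e := dt S gg x with he
    set T := S.filter (fun q => x q = 1) with hT
    set T' := S.filter (fun q => x q + 1 = 1) with hT'
    set a := sg e * (pw 0 (cj aR) * ∏ q ∈ T, q) with ha
    set b := sg (e + 1) * (pw 0 (cj aR) * ∏ q ∈ T', q) with hb
    have hTT : (∏ q ∈ T, q) * ∏ q ∈ T', q = ∏ q ∈ S, q := by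
      have h1 : T' = S.filter (fun q => ¬ x q = 1) := by
        apply filter_congr
        intro q _
        have : ∀ u : ZMod 2, u + 1 = 1 ↔ ¬ u = 1 := by decide
        exact this _
      rw [h1]
      exact prod_filter_mul_prod_filter_not S (fun q => x q = 1) (fun q => q)
    have hab : -D = a * b := by
      have h1 : a * b = (sg e * sg (e + 1)) * ((∏ q ∈ T, q) * ∏ q ∈ T', q) := by
        rw [ha, hb, pw_zero]; ring
      rw [h1, sg_mul_sg, hTT, hprod]
      ring
    obtain ⟨k1, k2, k3⟩ := va hS x e (cj aR) a ha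
    obtain ⟨l1, l2, l3⟩ := vc hS x e (cj aR) a ha
    have c1 : aR ^ 3 ∣ a - 1 ∨ aR ^ 3 ∣ a - -D := by
      rcases od3' _ k1 (by rw [k2, k3]) with h1 | h1
      · left
        apply r8_ker
        rw [map_sub, h1, map_one, sub_self]
      · right
        apply r8_ker
        rw [map_sub, h1, hrD, sub_self]
    have hcj : ∀ y : RR, aR ^ 3 ∣ cj y → (cj aR) ^ 3 ∣ y := by
      rintro y ⟨c, hc⟩
      refine ⟨cj c, ?_⟩
      rw [← map_pow, ← map_mul, ← hc, cj_cj]
    have c2 : (cj aR) ^ 3 ∣ a - 1 ∨ (cj aR) ^ 3 ∣ a - -D := by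
      rcases od3' _ l1 (by
        rw [l2, l3]
        have : ∀ u v w : ZMod 2, u + v + w = 0 → v + u = w := by decide
        exact this _ _ _ hx) with h1 | h1
      · left
        apply hcj
        apply r8_ker
        have h2 : r8 (cj a) = 1 := h1
        rw [map_sub, map_sub, h2, map_one, map_one, sub_self]
      · right
        apply hcj
        apply r8_ker
        have h2 : r8 (cj a) = 3 := h1
        have h3 : r8 (cj (-D)) = 3 := hrD (r8.comp cj)
        rw [map_sub, map_sub, h2, h3, sub_self]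
    have key : ∀ q ∈ S, (x q = 0 → Sqr q a) ∧ (x q = 1 → Sqr q b) := by
      intro q hq
      have hP := hS q hq
      have hrc := rc_sum hrec hS h0 x hq
      have hro := hrow q hq
      constructor
      · intro hx0
        have hnT : q ∉ T := by
          intro h
          rw [hT, mem_filter, hx0] at h
          exact zero_ne_one h.2
        obtain ⟨m1, m2⟩ := cs_gen hP (not_cja' hS q hq) (U := T)
          (fun p hp => hS p (mem_filter.1 hp).1) hnT e 0
        refine sqr_of_cs m1 ?_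
        rw [m2, hm1 q hP, hT, sum_filter_x]
        have h1 : ∑ p ∈ S, cs q p * x p = ∑ p ∈ S, cs q p * (x q + x p) :=
          sum_congr rfl fun p _ => by rw [hx0, zero_add]
        rw [h1, hrc]
        rw [hx0] at hro
        have : ∀ e t c L d : ZMod 2, L + t * d + t * 0 + t * e = 0 →
          e * t + (0 * c + (L + t * d)) = 0 := by decide
        exact this _ _ _ _ _ hro
      · intro hx1
        have hnT : q ∉ T' := by
          intro h
          rw [hT', mem_filter, hx1] at h
          exact absurd h.2 (by decide)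
        obtain ⟨m1, m2⟩ := cs_gen hP (not_cja' hS q hq) (U := T')
          (fun p hp => hS p (mem_filter.1 hp).1) hnT (e + 1) 0
        refine sqr_of_cs m1 ?_
        rw [m2, hm1 q hP, hT', sum_filter_x (x := fun q => x q + 1)]
        have h1 : ∑ p ∈ S, cs q p * (x p + 1) = ∑ p ∈ S, cs q p * (x q + x p) :=
          sum_congr rfl fun p _ => by rw [hx1, add_comm]
        rw [h1, hrc]
        rw [hx1] at hro
        have : ∀ e t c L d : ZMod 2, L + t * d + t * 1 + t * e = 0 →
          (e + 1) * t + (0 * c + (L + t * d)) = 0 := by decide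
        exact this _ _ _ _ _ hro
    -- prime divisors
    have hpd : ∀ (U : Finset RR) (f : ZMod 2) (π : RR), Prime π → U ⊆ S →
        π ∣ sg f * (pw 0 (cj aR) * ∏ q ∈ U, q) → ∃ q ∈ U, π ∣ q ∧ q ∣ π := by
      intro U f π hπ hU hd
      have hd1 : π ∣ ∏ q ∈ U, q := by
        rw [pw_zero, one_mul] at hd
        rcases zm f with h1 | h1
        · rwa [h1, sg_zero, one_mul] at hd
        · rwa [h1, sg_one, neg_one_mul, dvd_neg] at hd
      obtain ⟨q, hq, hπq⟩ := (hπ.dvd_finsetProd_iff _).1 hd1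
      exact ⟨q, hq, hπq, ((hπ.irreducible.associated_of_dvd (hS q (hU hq)).prime.irreducible
        hπq).symm).dvd⟩
    have c3 : ∀ π, Prime π → (π ∣ b → Sqr π a) ∧ (π ∣ a → Sqr π b) := by
      intro π hπ
      constructor
      · intro hd
        obtain ⟨q, hq, h1, h2⟩ := hpd T' (e + 1) π hπ (filter_subset _ _) hd
        rw [hT', mem_filter] at hq
        have h3 : x q = 0 := by
          have : ∀ u : ZMod 2, u + 1 = 1 → u = 0 := by decide
          exact this _ hq.2
        obtain ⟨y, hy⟩ := (key q hq.1).1 h3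
        exact ⟨y, h1.trans hy⟩
      · intro hd
        obtain ⟨q, hq, h1, h2⟩ := hpd T e π hπ (filter_subset _ _) hd
        rw [hT, mem_filter] at hq
        obtain ⟨y, hy⟩ := (key q hq.1).2 hq.2
        exact ⟨y, h1.trans hy⟩
    rcases hcond a b hab c1 c2 c3 with h1 | h1
    · refine ⟨0, fun q hq => ?_⟩
      by_contra hne
      have h2 : x q = 1 := (zm (x q)).resolve_left hne
      have h3 : q ∣ a := by
        rw [ha, pw_zero, one_mul]
        exact (dvd_prod_of_mem (fun q => q) (mem_filter.2 ⟨hq, h2⟩)).mul_left _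
      rw [h1] at h3
      exact (hS q hq).prime.not_isUnit (isUnit_of_dvd_one h3)
    · refine ⟨1, fun q hq => ?_⟩
      by_contra hne
      have h2 : x q + 1 = 1 := by
        rw [(zm (x q)).resolve_right hne, zero_add]
      have h3 : q ∣ b := by
        rw [hb, pw_zero, one_mul]
        exact (dvd_prod_of_mem (fun q => q) (mem_filter.2 ⟨hq, h2⟩)).mul_left _
      have h4 : b = 1 := by
        have h5 : -D * b = -D * 1 := by
          rw [mul_one]
          nth_rewrite 1 [← h1]
          exact hab.symm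
        exact mul_left_cancel₀ hD0 h5
      rw [h4] at h3
      exact (hS q hq).prime.not_isUnit (isUnit_of_dvd_one h3)
  · intro hE a b hab h1 h2 h3
    have hasq : Squarefree a := hDsq.squarefree_of_dvd ⟨b, hab⟩
    have hnd : ∀ π, Prime π → π ∣ a → ¬ π ∣ b := by
      intro π hπ ha hb
      exact hπ.not_isUnit (hDsq π (by rw [hab]; exact mul_dvd_mul ha hb))
    obtain ⟨x, e, a', hd, heq, ha⟩ := master hrec hm1 hS h0 1 prime_cjaR (not_cja' hS) hcca sc
      hasq (by
        intro ρ hρ hρa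
        right
        rw [← eN, hab]
        exact hρa.mul_right b) (by
        intro π hπ hπm
        rw [← eN] at hπm ⊢
        rw [hab] at hπm
        rcases hπ.dvd_or_dvd hπm with h4 | h4
        · right
          obtain ⟨a1, ha1⟩ := h4
          refine ⟨a1, a1 * b, ha1, by rw [hab, ha1]; ring, ?_⟩
          obtain ⟨y, c, hc⟩ := (h3 π hπ).2 ⟨a1, ha1⟩
          exact ⟨a1 * y, a1 ^ 2 * c, by linear_combination a1 ^ 2 * hc⟩
        · left
          exact ⟨fun h5 => hnd π hπ h5 h4, (h3 π hπ).1 h4⟩)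
    rw [dbl, zero_mul] at ha
    rw [ha] at hd heq
    obtain ⟨k1, k2, k3⟩ := va hS x e (cj aR) a hd
    obtain ⟨l1, l2, l3⟩ := vc hS x e (cj aR) a hd
    have w1 : r8 a = 1 ∨ r8 a = 3 := by
      rcases h1 with ⟨c, hc⟩ | ⟨c, hc⟩
      · left
        have h4 := congrArg r8 hc
        rw [map_sub, map_one, map_mul, map_pow, hr3, zero_mul] at h4
        exact sub_eq_zero.1 h4
      · right
        have h4 := congrArg r8 hc
        rw [map_sub, hrD, map_mul, map_pow, hr3, zero_mul] at h4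
        exact sub_eq_zero.1 h4
    have w2 : (r8.comp cj) a = 1 ∨ (r8.comp cj) a = 3 := by
      rcases h2 with ⟨c, hc⟩ | ⟨c, hc⟩
      · left
        have h4 := congrArg (r8.comp cj) hc
        rw [map_sub, map_one, map_mul, map_pow, hr3', zero_mul] at h4
        exact sub_eq_zero.1 h4
      · right
        have h4 := congrArg (r8.comp cj) hc
        rw [map_sub, hrD, map_mul, map_pow, hr3', zero_mul] at h4
        exact sub_eq_zero.1 h4
    have w3 := od3 _ k1 w1
    have w4 := od3 _ l1 w2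
    rw [k2, k3] at w3
    rw [l2, l3] at w4
    have hc : Cst S x := by
      refine hE x ?_ fun p hp => ?_
      · have : ∀ e t g h : ZMod 2, e = g → e + t = h → t + g + h = 0 := by decide
        exact this _ _ _ _ w3 w4
      · have h4 := heq p hp
        rw [w3] at h4
        have : ∀ L t d g xx c : ZMod 2, L + t * d + (g + 1 * xx) * t + 0 * c = 0 →
            L + t * d + t * xx + t * g = 0 := by decide
        exact this _ _ _ _ _ _ h4
    have := fin_cst (em := 1) hc hd
      (fun h => ⟨by rw [w3, dt_zero gg h], rfl⟩)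
      (fun h => ⟨by rw [w3, dt_one gg h, h5.1], rfl⟩)
    rwa [← eN] at this

end Pool.Agent.N765.SK
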